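import Pool.Agent.Helper63.PL.Goals

set_option autoImplicit false

/-!
# Continuity of the supremum and of the centre of the upper level
-/

open MeasureTheory Set
open scoped ENNReal ContDiff

namespace Pool.Agent.Helper27.PL

open Pool.Agent.Helper63.PL

lemma mx_le {N : ℕ} {f g : E N → ℝ} {s : ℝ} (hg : BddAbove (Set.range g))
    (h : ∀ x, |f x - g x| ≤ s) : Mx f ≤ Mx g + s := by
  unfold Mx
  apply ciSup_le
  intro x
  have h1 := le_ciSup hg x
  have h2 := (abs_le.1 (h x)).2
  linarith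

lemma mx_sub {N : ℕ} {f g : E N → ℝ} {s : ℝ} (hf : BddAbove (Set.range f))
    (hg : BddAbove (Set.range g)) (h : ∀ x, |f x - g x| ≤ s) : |Mx f - Mx g| ≤ s := by
  have a := mx_le hg h
  have b := mx_le (f := g) (g := f) (s := s) hf (fun x => by rw [abs_sub_comm]; exact h x)
  rw [abs_le]
  constructor <;> linarith

/-- The positive part of `f - (1 - κ) sup f`. -/
noncomputable def gp {N : ℕ} (κ : ℝ) (f : E N → ℝ) (x : E N) : ℝ := max (f x - (1 - κ) * Mx f) 0

lemma cpt {N : ℕ} {f : E N → ℝ} {B : ℝ} (h : ∀ x, B < ‖x‖ → f x = 0) : HasCompactSupport f := by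
  apply HasCompactSupport.intro (isCompact_closedBall (0 : E N) B)
  intro x hx
  apply h
  rw [Metric.mem_closedBall, dist_zero_right, not_le] at hx
  exact hx

lemma bdd {N : ℕ} {f : E N → ℝ} {B : ℝ} (hf : Continuous f) (h : ∀ x, B < ‖x‖ → f x = 0) :
    BddAbove (Set.range f) :=
  hf.bddAbove_range_of_hasCompactSupport (cpt h)

lemma exists_far {N : ℕ} (hN : 0 < N) (B : ℝ) : ∃ x : E N, B < ‖x‖ := by
  refine ⟨EuclideanSpace.single ⟨0, hN⟩ (|B| + 1), ?_⟩
  rw [PiLp.norm_single, Real.norm_eq_abs, abs_of_pos (by positivity)]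
  have := le_abs_self B
  linarith

lemma mx_nonneg {N : ℕ} (hN : 0 < N) {f : E N → ℝ} {B : ℝ} (hf : Continuous f)
    (h : ∀ x, B < ‖x‖ → f x = 0) : 0 ≤ Mx f := by
  obtain ⟨x, hx⟩ := exists_far hN B
  have h1 := le_ciSup (bdd hf h) x
  rw [h x hx] at h1
  exact h1

lemma gp_zero {N : ℕ} (hN : 0 < N) {κ : ℝ} (hκ : κ < 1) {f : E N → ℝ} {B : ℝ} (hf : Continuous f)
    (h : ∀ x, B < ‖x‖ → f x = 0) (x : E N) (hx : B < ‖x‖) : gp κ f x = 0 := by
  unfold gp
  rw [h x hx]
  apply max_eq_right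
  have h1 := mx_nonneg hN hf h
  have h2 : 0 ≤ (1 - κ) * Mx f := mul_nonneg (by linarith) h1
  linarith

lemma gp_cont {N : ℕ} {κ : ℝ} {f : E N → ℝ} (hf : Continuous f) : Continuous (gp κ f) := by
  unfold gp
  exact (hf.sub continuous_const).max continuous_const

lemma gp_int {N : ℕ} (hN : 0 < N) {κ : ℝ} (hκ : κ < 1) {f : E N → ℝ} {B : ℝ} (hf : Continuous f)
    (h : ∀ x, B < ‖x‖ → f x = 0) : Integrable (fun x : E N => gp κ f x • x) := by
  apply Continuous.integrable_of_hasCompactSupport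
  · exact (gp_cont hf).smul continuous_id
  · apply HasCompactSupport.intro (isCompact_closedBall (0 : E N) B)
    intro x hx
    rw [Metric.mem_closedBall, dist_zero_right, not_le] at hx
    show gp κ f x • x = 0
    rw [gp_zero hN hκ hf h x hx, zero_smul]

lemma cen_eq {N : ℕ} (κ : ℝ) (f : E N → ℝ) : cen κ f = ∫ x, gp κ f x • x := rfl

theorem co : CoStmt := by
  refine ⟨fun N f g s hf hg h => mx_sub hf hg h, ?_⟩
  intro N hN κ B hκ0 hκ1 hB
  refine ⟨2 * B * (volume : Measure (E N)).real (Metric.closedBall (0 : E N) B), by positivity, ?_⟩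
  intro f g hf hg hfB hgB s hs
  have hs0 : 0 ≤ s := le_trans (abs_nonneg _) (hs 0)
  have hM := mx_sub (bdd hf hfB) (bdd hg hgB) hs
  have hdiff : ∀ x : E N, |gp κ f x - gp κ g x| ≤ 2 * s := by
    intro x
    unfold gp
    have h1 := abs_max_sub_max_le_abs (f x - (1 - κ) * Mx f) (g x - (1 - κ) * Mx g) 0
    have h2 : |f x - (1 - κ) * Mx f - (g x - (1 - κ) * Mx g)| ≤ 2 * s := by
      have h3 : f x - (1 - κ) * Mx f - (g x - (1 - κ) * Mx g) =
          (f x - g x) - (1 - κ) * (Mx f - Mx g) := by ring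
      rw [h3]
      have h4 : |(1 - κ) * (Mx f - Mx g)| ≤ 1 * s := by
        rw [abs_mul, abs_of_pos (by linarith : (0 : ℝ) < 1 - κ)]
        exact mul_le_mul (by linarith) hM (abs_nonneg _) (by norm_num)
      have h5 := abs_sub (f x - g x) ((1 - κ) * (Mx f - Mx g))
      have h6 := hs x
      linarith
    exact h1.trans h2
  rw [cen_eq, cen_eq, ← integral_sub (gp_int hN hκ1 hf hfB) (gp_int hN hκ1 hg hgB)]
  have hset : ∫ x in Metric.closedBall (0 : E N) B, (gp κ f x • x - gp κ g x • x) =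
      ∫ x, (gp κ f x • x - gp κ g x • x) := by
    apply setIntegral_eq_integral_of_forall_compl_eq_zero
    intro x hx
    rw [Metric.mem_closedBall, dist_zero_right, not_le] at hx
    rw [gp_zero hN hκ1 hf hfB x hx, gp_zero hN hκ1 hg hgB x hx]
    simp
  rw [← hset]
  have hbound := norm_setIntegral_le_of_norm_le_const (μ := (volume : Measure (E N)))
    (s := Metric.closedBall (0 : E N) B) (f := fun x => gp κ f x • x - gp κ g x • x)
    (C := 2 * s * B) (isCompact_closedBall (0 : E N) B).measure_lt_top (by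
      intro x hx
      rw [Metric.mem_closedBall, dist_zero_right] at hx
      rw [← sub_smul, norm_smul, Real.norm_eq_abs]
      exact mul_le_mul (hdiff x) hx (norm_nonneg _) (by positivity))
  refine hbound.trans (le_of_eq ?_)
  ring

end Pool.Agent.Helper27.PL
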